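import Pool.Agent.Helper29.E3.St2

/-! # Project E3 (MP_3923f3_nt), module T2P -/

set_option autoImplicit false

namespace Pool.Agent.Helper62.E3

open Finset ArithmeticFunction
open Pool.Agent.Helper29.E3 Pool.Agent.Helper49.PC
open Pool.Agent.Helper48.BK (ex th lz Vz Pz gs nd Apx AdN Sol thd)
open scoped ComplexConjugate

theorem alg1 (k c a₂ : ℕ) (C X L : ℝ) (hC : 0 < C) (hX : 0 ≤ X) (hL : 1 ≤ L)
    (h : C * 2 ^ (5 * k + 4 + c) ≤ L) :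
    C * (2 * L) ^ (4 * (k + 1)) * X ^ (2 * (k + 1)) * (1 + L) ^ c *
      ((2 * X ^ 2 * L ^ 2) ^ (k + 1 - 1) * (X / L ^ (3 * (k + 1) + c + (k + 1) * a₂)) ^ 2) ≤
      (X ^ 2 / L ^ a₂) ^ (2 * (k + 1)) := by
  have hL0 : 0 < L := by linarith
  have h1 : (1 + L) ^ c ≤ (2 * L) ^ c := pow_le_pow_left₀ (by linarith) (by linarith) c
  have h2 : k + 1 - 1 = k := by omega
  rw [h2]
  have h3 : C * (2 * L) ^ (4 * (k + 1)) * X ^ (2 * (k + 1)) * (1 + L) ^ c *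
      ((2 * X ^ 2 * L ^ 2) ^ k * (X / L ^ (3 * (k + 1) + c + (k + 1) * a₂)) ^ 2) ≤
      C * (2 * L) ^ (4 * (k + 1)) * X ^ (2 * (k + 1)) * (2 * L) ^ c *
      ((2 * X ^ 2 * L ^ 2) ^ k * (X / L ^ (3 * (k + 1) + c + (k + 1) * a₂)) ^ 2) := by
    refine mul_le_mul_of_nonneg_right ?_ (by positivity)
    exact mul_le_mul_of_nonneg_left h1 (by positivity)
  refine h3.trans ?_
  have h4 : C * (2 * L) ^ (4 * (k + 1)) * X ^ (2 * (k + 1)) * (2 * L) ^ c *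
      ((2 * X ^ 2 * L ^ 2) ^ k * (X / L ^ (3 * (k + 1) + c + (k + 1) * a₂)) ^ 2) =
      (C * 2 ^ (5 * k + 4 + c)) * (X ^ (4 * (k + 1)) * L ^ (6 * k + 4 + c)) /
        L ^ (2 * (3 * (k + 1) + c + (k + 1) * a₂)) := by
    have e1 : (L ^ (3 * (k + 1) + c + (k + 1) * a₂)) ^ 2 =
        L ^ (2 * (3 * (k + 1) + c + (k + 1) * a₂)) := by
      rw [← pow_mul, mul_comm]
    rw [div_pow, e1, mul_div_assoc', mul_div_assoc']
    congr 1
    ring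
  have h5 : (X ^ 2 / L ^ a₂) ^ (2 * (k + 1)) = X ^ (4 * (k + 1)) / L ^ (2 * (k + 1) * a₂) := by
    rw [div_pow, ← pow_mul, ← pow_mul]
    congr 2
    · ring
    · ring
  rw [h4, h5, div_le_div_iff₀ (by positivity) (by positivity)]
  have h6 : L * L ^ (6 * k + 4 + c) * L ^ (2 * (k + 1) * a₂) ≤
      L ^ (2 * (3 * (k + 1) + c + (k + 1) * a₂)) := by
    rw [← pow_succ', ← pow_add]
    apply pow_le_pow_right₀ hL
    nlinarith
  calc C * 2 ^ (5 * k + 4 + c) * (X ^ (4 * (k + 1)) * L ^ (6 * k + 4 + c)) *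
        L ^ (2 * (k + 1) * a₂)
      = (C * 2 ^ (5 * k + 4 + c)) *
        (X ^ (4 * (k + 1)) * (L ^ (6 * k + 4 + c) * L ^ (2 * (k + 1) * a₂))) := by ring
    _ ≤ L * (X ^ (4 * (k + 1)) * (L ^ (6 * k + 4 + c) * L ^ (2 * (k + 1) * a₂))) :=
        mul_le_mul_of_nonneg_right h (by positivity)
    _ = X ^ (4 * (k + 1)) * (L * L ^ (6 * k + 4 + c) * L ^ (2 * (k + 1) * a₂)) := by ring
    _ ≤ X ^ (4 * (k + 1)) * L ^ (2 * (3 * (k + 1) + c + (k + 1) * a₂)) :=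
        mul_le_mul_of_nonneg_left h6 (by positivity)

theorem alg2 (A a : ℕ) (X L : ℝ) (hX : 0 ≤ X) (hL : 128 ≤ L) :
    2 * (1 + L) / (1 / L ^ a) * (X ^ 2 / L ^ (A + a + 3)) ≤ X ^ 2 / (2 * L ^ A) := by
  have hL0 : 0 < L := by linarith
  have h1 : 2 * (1 + L) / (1 / L ^ a) * (X ^ 2 / L ^ (A + a + 3)) =
      (2 * (1 + L) * X ^ 2) / (L ^ A * L ^ 3) := by
    rw [pow_add, pow_add]
    field_simp
  rw [h1, div_le_div_iff₀ (by positivity) (by positivity)]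
  have h2 : 2 * (1 + L) * 2 ≤ L ^ 3 := by nlinarith [sq_nonneg L, mul_pos hL0 hL0]
  calc 2 * (1 + L) * X ^ 2 * (2 * L ^ A) = (X ^ 2 * L ^ A) * (2 * (1 + L) * 2) := by ring
    _ ≤ (X ^ 2 * L ^ A) * L ^ 3 := mul_le_mul_of_nonneg_left h2 (by positivity)
    _ = X ^ 2 * (L ^ A * L ^ 3) := by ring

theorem alg3 (A : ℕ) (X L q : ℝ) (hX : 0 ≤ X) (hL : 128 ≤ L) (hq0 : 0 ≤ q)
    (hq : q ≤ X / L ^ (2 * A + 80)) :
    √(2 * X ^ 2 * L ^ 2) * √(2 * (1 / L ^ (2 * A + 80) * X + q + q) * (2 * L) ^ 4 * X *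
      (1 + L) ^ 63) ≤ X ^ 2 / (2 * L ^ A) := by
  have hL0 : 0 < L := by linarith
  rw [← Real.sqrt_mul (by positivity)]
  have h0 : 0 ≤ X ^ 2 / (2 * L ^ A) := by positivity
  rw [← Real.sqrt_sq h0]
  apply Real.sqrt_le_sqrt
  have h1 : (1 + L) ^ 63 ≤ (2 * L) ^ 63 := pow_le_pow_left₀ (by linarith) (by linarith) 63
  have h2 : 1 / L ^ (2 * A + 80) * X + q + q ≤ 3 * (X / L ^ (2 * A + 80)) := by
    have : 1 / L ^ (2 * A + 80) * X = X / L ^ (2 * A + 80) := by ring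
    linarith
  have h3 : 2 * X ^ 2 * L ^ 2 * (2 * (1 / L ^ (2 * A + 80) * X + q + q) * (2 * L) ^ 4 * X *
      (1 + L) ^ 63) ≤ 2 * X ^ 2 * L ^ 2 * (2 * (3 * (X / L ^ (2 * A + 80))) * (2 * L) ^ 4 * X *
      (2 * L) ^ 63) := by
    refine mul_le_mul_of_nonneg_left ?_ (by positivity)
    refine mul_le_mul ?_ h1 (by positivity) (by positivity)
    refine mul_le_mul_of_nonneg_right ?_ hX
    refine mul_le_mul_of_nonneg_right ?_ (by positivity)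
    exact mul_le_mul_of_nonneg_left h2 (by norm_num)
  refine h3.trans ?_
  have h4 : 2 * X ^ 2 * L ^ 2 * (2 * (3 * (X / L ^ (2 * A + 80))) * (2 * L) ^ 4 * X *
      (2 * L) ^ 63) = (192 * 2 ^ 63 * X ^ 4) * L ^ 69 / (L ^ (2 * A) * L ^ 80) := by
    rw [← pow_add]
    field_simp
    ring
  have h5 : (X ^ 2 / (2 * L ^ A)) ^ 2 = X ^ 4 / (4 * L ^ (2 * A)) := by
    rw [div_pow, mul_pow, ← pow_mul, ← pow_mul, mul_comm A 2]
    norm_num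
  rw [h4, h5, div_le_div_iff₀ (by positivity) (by positivity)]
  have h6 : (192 : ℝ) * 2 ^ 63 * 4 ≤ L ^ 11 := by
    have h7 : (128 : ℝ) ^ 11 ≤ L ^ 11 := pow_le_pow_left₀ (by norm_num) hL 11
    refine le_trans ?_ h7
    norm_num
  calc 192 * 2 ^ 63 * X ^ 4 * L ^ 69 * (4 * L ^ (2 * A))
      = (X ^ 4 * (L ^ (2 * A) * L ^ 69)) * (192 * 2 ^ 63 * 4) := by ring
    _ ≤ (X ^ 4 * (L ^ (2 * A) * L ^ 69)) * L ^ 11 :=
        mul_le_mul_of_nonneg_left h6 (by positivity)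
    _ = X ^ 4 * (L ^ (2 * A) * L ^ 80) := by ring

theorem qle (k a q X : ℕ) (L : ℝ) (hL : 1 ≤ L) (hX : L ^ (3 * a) ≤ X) (hq1 : 1 ≤ q)
    (hq : q ^ (3 * (k + 1) + 4) ≤ X ^ (2 * (k + 1))) : (q : ℝ) ≤ X / L ^ a := by
  have hL0 : 0 < L := by linarith
  have h1 : q ^ (3 * (k + 1)) ≤ X ^ (2 * (k + 1)) :=
    (Nat.pow_le_pow_right hq1 (by omega)).trans hq
  have h2 : q ^ 3 ≤ X ^ 2 := by
    rw [pow_mul, pow_mul] at h1
    exact (Nat.pow_le_pow_iff_left (Nat.succ_ne_zero k)).1 h1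
  have h3 : (q : ℝ) ^ 3 ≤ (X : ℝ) ^ 2 := by exact_mod_cast h2
  have h4 : (X : ℝ) ^ 2 ≤ (X / L ^ a) ^ 3 := by
    rw [div_pow, ← pow_mul, le_div_iff₀ (by positivity), mul_comm a 3]
    calc (X : ℝ) ^ 2 * L ^ (3 * a) ≤ (X : ℝ) ^ 2 * X :=
          mul_le_mul_of_nonneg_left hX (by positivity)
      _ = (X : ℝ) ^ 3 := by ring
  exact le_of_pow_le_pow_left₀ (by norm_num) (by positivity) (h3.trans h4)

theorem big (a : ℕ) (B : ℝ) : ∀ᶠ X : ℕ in Filter.atTop,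
    128 ≤ Real.log X ∧ B ≤ Real.log X ∧ Real.log X ^ a ≤ X ∧ 3 ≤ X := by
  have h1 : Filter.Tendsto (fun X : ℕ => Real.log (X : ℝ)) Filter.atTop Filter.atTop :=
    Real.tendsto_log_atTop.comp tendsto_natCast_atTop_atTop
  have h2 : ∀ᶠ x : ℝ in Filter.atTop, Real.log x ^ a ≤ x := by
    have h3 := (isLittleO_log_rpow_atTop (r := 1) one_pos)
    have h4 := (Real.isLittleO_pow_log_id_atTop (n := a)).bound (c := 1) one_pos
    filter_upwards [h4, Filter.eventually_ge_atTop (1 : ℝ)] with x hx hx1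
    rw [one_mul, id, Real.norm_of_nonneg (by linarith : (0 : ℝ) ≤ x)] at hx
    exact (le_abs_self _).trans hx
  have h5 := tendsto_natCast_atTop_atTop (R := ℝ) |>.eventually h2
  filter_upwards [h1.eventually_ge_atTop 128, h1.eventually_ge_atTop B, h5,
    Filter.eventually_ge_atTop 3] with X a1 a2 a3 a4
  exact ⟨a1, a2, a3, a4⟩

theorem hT2P (hBDG : StBDG) (hPC2 : StPC2) : StT2P := by
  intro r A hr
  obtain ⟨k, rfl⟩ : ∃ k, r = k + 1 := ⟨r - 1, by omega⟩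
  obtain ⟨C, c, hC, hpc⟩ := hPC2 (k + 1) hr
  obtain ⟨x₀, hx₀⟩ := Filter.eventually_atTop.1
    (big (3 * (2 * A + 80)) (C * 2 ^ (5 * k + 4 + c)))
  refine ⟨3 * (k + 1) + c + (k + 1) * (A + (2 * A + 80) + 3), x₀, ?_⟩
  intro q _ X U w₀ w₁ α β 𝓖 S hX hq hU hUr hw hw1 hα hβ hS hSS
  obtain ⟨b1, b2, b3, b4⟩ := hx₀ X hX
  obtain ⟨L, hLdef⟩ : ∃ L, L = Real.log X := ⟨_, rfl⟩
  rw [← hLdef] at b1 b2 b3 hα hβ hS hSS
  have hL1 : 1 ≤ L := by linarith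
  have hL0 : 0 < L := by linarith
  have hq1 : 1 ≤ q := Nat.one_le_iff_ne_zero.2 (NeZero.ne q)
  have hX0 : (0 : ℝ) ≤ X := Nat.cast_nonneg X
  have hqX := qle k (2 * A + 80) q X L hL1 b3 hq1 hq
  have hδ : 0 < 1 / L ^ (2 * A + 80) := by positivity
  have hδ1 : 1 / L ^ (2 * A + 80) ≤ 1 := by
    rw [div_le_one (by positivity)]
    exact one_le_pow₀ hL1
  have hP0 : 0 ≤ (X : ℝ) ^ 2 / L ^ (A + (2 * A + 80) + 3) := by positivity
  have hb := hBDG q X w₀ w₁ α β (2 * L) (1 / L ^ (2 * A + 80)) (2 * (X : ℝ) ^ 2 * L ^ 2)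
    ((X : ℝ) ^ 2 / L ^ (A + (2 * A + 80) + 3)) 𝓖 S b4 (by positivity) hα.1 hβ.1
    (hα.2 1 hq1) hδ hδ1 hw hw1 (fun χ hχ => (hS χ hχ).1) hSS hP0 (by
      intro K K' y₀ y₁ hK hKK hK2 hy
      have h1 := hpc q X U q α β (2 * L) K K' y₀ y₁
        (X / L ^ (3 * (k + 1) + c + (k + 1) * (A + (2 * A + 80) + 3)))
        (2 * (X : ℝ) ^ 2 * L ^ 2) 𝓖 S b4 le_rfl hUr (by positivity) hα hβ hK hKK hK2 hy
        (by positivity) hS hSS
      rw [← hLdef] at h1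
      have h2 := alg1 k c (A + (2 * A + 80) + 3) C X L hC hX0 hL1 b2
      exact le_of_pow_le_pow_left₀ (by omega) hP0 (h1.trans h2))
  rw [← hLdef] at hb
  rw [← hLdef]
  have c1 := alg2 A (2 * A + 80) X L hX0 b1
  have c2 := alg3 A X L q hX0 b1 (Nat.cast_nonneg q) hqX
  refine hb.trans ((add_le_add c1 c2).trans (le_of_eq ?_))
  field_simp
  ring

end Pool.Agent.Helper62.E3
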